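import Pool.Agent.H31.Thr.T16_Iff
import Pool.Agent.H31.Thr.T15_HypEl
import Pool.Agent.H31.CF.Zeta

/-!
# MP_d2121a_nt : Artin's holomorphy conjecture, the exact range of the order of `ζ_L` for solvable
extensions of degree `m`

`ThrNum m t` says that `t` is one of the following numbers (`p`, `q` primes, `q` odd, `n ≥ 1`):

* `p ^ n`, where `q ∣ p ^ n + 1` and `q * p ^ (2 * n + 1) ∣ m`;
* `p`, where `p % 4 = 3` and `4 * p ^ 3 ∣ m`;
* `2 * p`, where `p % 4 = 1` and `8 * p ^ 3 ∣ m`;
* `2 * p ^ n`, where `p % 4 = 1`, `q ∣ p ^ n - 1` and `4 * q * p ^ (2 * n + 1) ∣ m`;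
* `2 * 2 ^ n`, where `q ∣ 2 ^ n - 1` and `q * 2 ^ (2 * n + 2) ∣ m`.

* Group theory: for every `m ≥ 1` and every `r`, all Heilbronn class functions of
  degree `r` on all solvable groups of order `m` are characters if and only if `r` is less than
  every `t` with `ThrNum m t`.
* L-functions (no hypothesis): let `L/K` be a solvable Galois extension of number fields of degree
  `m` and `s₀ ≠ 1` a complex number.  If the order of the Dedekind zeta function of `L` at `s₀` is
  less than every `t` with `ThrNum m t`, then all Artin L-functions of `L/K` have meromorphic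
  continuations to `ℂ`, and these are holomorphic at `s₀`.  The theorems of Artin, Brauer and Hecke
  needed for this are proved in `H31/CF/Main.lean`.
-/

open NumberField Module
open Pool.Agent.H7.Artin Pool.Agent.H24.HL Pool.Agent.H72.Exact Pool.Agent.H31.Thr
open Pool.Agent.H31.CF

namespace Pool.Agent.H91.Kept.SolvableThreshold

theorem result :
    -- the exact threshold for solvable groups of order `m`
    (∀ m r : ℕ, m ≠ 0 →
      ((∀ (G : Type) [Group G] [Fintype G] [Group.IsSolvable G] (θ : G → ℂ), Nat.card G = m →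
        IsHeilbronn θ → θ 1 = r → IsCharacter θ) ↔ ∀ t, ThrNum m t → r < t)) ∧
    -- Artin L-functions
    (∀ (K L : Type) [Field K] [NumberField K] [Field L] [NumberField L] [Algebra K L]
      [IsGalois K L] (s₀ : ℂ) (Z : ℂ → ℂ), Group.IsSolvable Gal(L/K) → s₀ ≠ 1 →
      IsZetaContinuation L Z →
      (∀ t, ThrNum (finrank K L) t → meromorphicOrderAt Z s₀ < ((t : ℤ) : WithTop ℤ)) →
      ∀ (V : Type) [AddCommGroup V] [Module ℂ V] [FiniteDimensional ℂ V]
        (ρ : Representation ℂ Gal(L/K) V), (∃ Λ : ℂ → ℂ, IsContinuation K L ρ Λ) ∧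
        ∀ Λ : ℂ → ℂ, IsContinuation K L ρ Λ → 0 ≤ meromorphicOrderAt Λ s₀) := by
  refine ⟨fun m r hm => ?_, fun K L _ _ _ _ _ _ s₀ Z hsol hs₀ hZ hord V _ _ _ ρ =>
    ⟨(artin_brauer_hecke K L).1 V ρ, fun Λ hΛ =>
    lform K L s₀ Z (artin_brauer_hecke K L).1 ((artin_brauer_hecke K L).2 s₀ hs₀)
      ((isContinuation_ltr_iff K L Z).2 hZ) hord V ρ Λ hΛ⟩⟩
  rw [← good_iff hm r]
  constructor
  · intro h G _ _ _ θ hG hθ _ hr
    exact h G θ hG hθ hr
  · intro h G _ _ _ θ hG hθ hr
    exact h G θ hG hθ (heil_vir hθ.heil) hr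

end Pool.Agent.H91.Kept.SolvableThreshold
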